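import Pool.Agent.H.MP_93ce62_an.D
import Pool.Agent.H.MP_93ce62_an.E

namespace Pool.Agent.Results.MP_93ce62_an.No

open Filter Topology WeakDual

section Defs

variable (A : Type) [NonUnitalNormedCommRing A] [NormedSpace ℂ A]

/-- Complete regularity, with the maximal ideal space `characterSpace ℂ A`
(nonzero multiplicative linear functionals with the Gelfand topology). -/
def CompletelyRegular : Prop :=
  ∀ F : Set (characterSpace ℂ A), IsClosed F → ∀ φ₀ : characterSpace ℂ A, φ₀ ∉ F →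
    ∃ a : A, (∀ φ ∈ F, φ a = 0) ∧ φ₀ a ≠ 0

/-- The Gelfand transform is injective. -/
def Semisimple : Prop := ∀ a : A, (∀ φ : characterSpace ℂ A, φ a = 0) → a = 0

/-- Bounded approximate identity: a bounded net `e` over a nonempty directed preorder with
`‖a - e i * a‖ → 0` for every `a`. -/
def BAI : Prop :=
  ∃ (ι : Type) (_ : Preorder ι) (_ : IsDirectedOrder ι) (_ : Nonempty ι) (e : ι → A) (C : ℝ),
    (∀ i, ‖e i‖ ≤ C) ∧ ∀ a : A, Tendsto (fun i => ‖a - e i * a‖) atTop (𝓝 0)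

/-- Filter form of a bounded approximate identity (a net indexed in any universe gives one by
pushing its tail filter forward). -/
def BAIFilter : Prop :=
  ∃ (C : ℝ) (l : Filter A), l.NeBot ∧ (∀ᶠ e in l, ‖e‖ ≤ C) ∧
    ∀ a : A, Tendsto (fun e => ‖a - e * a‖) l (𝓝 0)

/-- Condition (F-pairs). -/
def FPairs : Prop :=
  ∃ M : ℝ, 1 ≤ M ∧ ∀ n : ℕ, n = 1 ∨ n = 2 → ∀ a : Fin n → A,
    ∃ (b : A) (c : Fin n → A), ∀ i, a i = b * c i ∧ ‖b‖ * ‖c i‖ ≤ M * ‖a i‖

/-- Condition (F-sums). -/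
def FSums : Prop :=
  ∃ M : ℝ, 1 ≤ M ∧ ∀ a : A, ∃ b₁ c₁ b₂ c₂ : A,
    a = b₁ * c₁ + b₂ * c₂ ∧ ‖b₁‖ * ‖c₁‖ + ‖b₂‖ * ‖c₂‖ ≤ M * ‖a‖

end Defs

open Pool.Agent.H.MP_93ce62_an in
theorem result : ∃ (A : Type) (_ : NonUnitalNormedCommRing A) (_ : NormedSpace ℂ A)
    (_ : IsScalarTower ℂ A A) (_ : SMulCommClass ℂ A A) (_ : CompleteSpace A),
    DiscreteTopology (characterSpace ℂ A) ∧ CompletelyRegular A ∧ Semisimple A ∧
      FPairs A ∧ FSums A ∧ ¬ BAI A ∧ ¬ BAIFilter A := by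
  classical
  let D : ∀ n : ℕ, Dg (n + 2) := fun n => (exists_dg (n + 2)).some
  have hf : ∀ n : ℕ, Fact (2 ≤ n + 2) := fun n => ⟨by omega⟩
  let B : ℕ → Type := fun n => Alg (D n)
  let ev : ∀ n, Pt (D n) → B n → ℂ := fun n x a => a x
  let δ : ∀ n, Pt (D n) → B n := fun n x => (Pi.single x 1 : Pt (D n) → ℂ)
  have hδ : ∀ n x a, δ n x * a = ev n x a • δ n x := by
    intro n x a
    funext y
    change (Pi.single x 1 : Pt (D n) → ℂ) y * a y = a x * (Pi.single x 1 : Pt (D n) → ℂ) y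
    by_cases h : y = x
    · subst h; ring
    · simp [h]
  have hsum : ∀ n a, a = ∑ x, ev n x a • δ n x := by
    intro n a
    exact pi_eq_sum_univ' (R := ℂ) (a : Pt (D n) → ℂ)
  have hp := pairs (B := B) (fun n a b => nrm_div (D := D n) (by omega) a b)
  have hb : ¬ BAIFilter (C0 B) := by
    refine no_bai (B := B) (fun n => ⟨(1 : Pt (D n) → ℂ),
      fun e => mul_one (M := Pt (D n) → ℂ) e, ?_⟩)
    have := nrm_one (D := D n)
    push_cast at this
    change (n : ℝ) ≤ 3 * nrm (1 : Pt (D n) → ℂ)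
    linarith
  refine ⟨C0 B, inferInstance, inferInstance, inferInstance, inferInstance, inferInstance,
    char_discrete ev δ hδ hsum, ?_, ?_, ?_, ?_, ?_, hb⟩
  · intro F _ φ hφ
    obtain ⟨a, h1, h2⟩ := char_sep ev δ hδ hsum φ
    exact ⟨a, fun ψ hψ => h2 ψ fun e => hφ (e ▸ hψ), h1⟩
  · exact char_ss ev δ hsum (fun _ _ _ _ => rfl) (fun _ _ _ _ => rfl) (fun _ _ _ _ => rfl)
      (fun n x a => val_le_nrm (D := D n) (by omega) a x)
  · refine ⟨32, by norm_num, ?_⟩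
    rintro n (rfl | rfl) a
    · obtain ⟨u, a', b', h1, -, h3, -⟩ := hp (a 0) (a 0)
      refine ⟨u, fun _ => a', fun i => ?_⟩
      rw [Subsingleton.elim i 0]
      exact ⟨h1, h3⟩
    · obtain ⟨u, a', b', h1, h2, h3, h4⟩ := hp (a 0) (a 1)
      refine ⟨u, ![a', b'], fun i => ?_⟩
      fin_cases i
      · exact ⟨h1, h3⟩
      · exact ⟨h2, h4⟩
  · refine ⟨32, by norm_num, fun a => ?_⟩
    obtain ⟨u, a', b', h1, -, h3, -⟩ := hp a a
    exact ⟨u, a', 0, 0, by simpa using h1, by simpa using h3⟩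
  · rintro ⟨ι, _, _, _, e, C, hC, h⟩
    exact hb
      ⟨C, map e atTop, inferInstance, eventually_map.mpr (Eventually.of_forall hC), fun a => h a⟩

end Pool.Agent.Results.MP_93ce62_an.No
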